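import Pool.Agent.H18.VZ.Targets
import Pool.Agent.H30.HX.MonY

/-!
# Power series points over an arbitrary hypersurface
-/

open MvPolynomial
open Pool.Agent.H12.ZD (pmap)
open Pool.Agent.H18.HIT Pool.Agent.H18.HX Pool.Agent.H18.VZ

namespace Pool.Agent.H55.VZ

theorem pf_AB (hKAP : T_KAP) (hARC : Pool.Agent.H18.VZ.T_ARC) (hNPX : T_NPX) : T_AB := by
  intro N r k _ _ _ P q hP hq
  obtain ⟨κ, iF, iA, iAl, τ, i₀, hτ, hi₀, hδ, -⟩ := hKAP N k q hq
  have hCh : CharZero κ := charZero_of_injective_algebraMap (algebraMap k κ).injective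
  set g1 : Po N k →+* PowerSeries κ := (aeval (fun l : Fin N => PowerSeries.C (τ l) +
    (if l = i₀ then PowerSeries.X else 0)) : Po N k →ₐ[k] PowerSeries κ).toRingHom with hg1
  have hdeg : (finSuccEquiv k N P).natDegree = r := Pool.Agent.H30.HX.natDeg_of hP.hom hP.mon
  have hmon : (finSuccEquiv k N P).Monic := hP.mon
  have hQ : ((finSuccEquiv k N P).map g1).Monic := hmon.map g1
  have hQd : ((finSuccEquiv k N P).map g1).natDegree = r := by
    rw [hmon.natDegree_map, hdeg]
  obtain ⟨m, f, x, hm, hfX, hfC, -, hfx⟩ := hNPX κ _ hQ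
  have hcomp : f.comp g1 = (aeval (fun l : Fin N => PowerSeries.C (τ l) +
      (if l = i₀ then PowerSeries.X ^ m else 0)) : Po N k →ₐ[k] PowerSeries κ).toRingHom := by
    refine MvPolynomial.ringHom_ext ?_ ?_
    · intro a
      have h1 : g1 (C a) = PowerSeries.C (algebraMap k κ a) := by
        rw [hg1]
        change aeval _ (C a) = _
        rw [aeval_C, PowerSeries.algebraMap_apply]
      have h2 : (aeval (fun l : Fin N => PowerSeries.C (τ l) +
          (if l = i₀ then PowerSeries.X ^ m else 0)) : Po N k →ₐ[k] PowerSeries κ) (C a) =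
          PowerSeries.C (algebraMap k κ a) := by
        rw [aeval_C, PowerSeries.algebraMap_apply]
      change f (g1 (C a)) = (aeval _ : Po N k →ₐ[k] PowerSeries κ) (C a)
      rw [h1, h2, hfC]
    · intro l
      have h1 : g1 (X l) = PowerSeries.C (τ l) + (if l = i₀ then PowerSeries.X else 0) := by
        rw [hg1]
        change aeval _ (X l) = _
        rw [aeval_X]
      change f (g1 (X l)) = (aeval _ : Po N k →ₐ[k] PowerSeries κ) (X l)
      rw [h1, aeval_X, map_add, hfC]
      split_ifs with h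
      · rw [hfX]
      · rw [map_zero]
  have hsplit : (finSuccEquiv k N P).map (aeval (fun l : Fin N => PowerSeries.C (τ l) +
      (if l = i₀ then PowerSeries.X ^ m else 0)) : Po N k →ₐ[k] PowerSeries κ).toRingHom =
        ∏ j : Fin r, (Polynomial.X - Polynomial.C (x (Fin.cast hQd.symm j))) := by
    rw [← hcomp, ← Polynomial.map_map, hfx]
    exact (Equiv.prod_comp (finCongr hQd.symm)
      (fun j => (Polynomial.X - Polynomial.C (x j)))).symm
  obtain ⟨ψ, hSpl, -, -, hdd, -⟩ := hARC N r m k κ P q τ i₀ (fun j => x (Fin.cast hQd.symm j))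
    hP hq hm hτ hi₀ hδ hsplit
  exact ⟨κ, iF, iAl, ψ, m, hSpl, hdd⟩

end Pool.Agent.H55.VZ
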